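import Pool.Agent.W626.FR.Stms

/-!
# Frog model, recurrent half: from thresholds of leaves to thresholds of children (TaskRed)
-/

namespace Pool.Agent.W935.FR.Red

open MeasureTheory ProbabilityTheory Filter FrogGW FrogRec
open scoped ENNReal NNReal Classical Topology

/-- Pairing of two product measures, coordinate by coordinate. -/
theorem pi_prod_dep {ι : Type} [Fintype ι] {α β : ι → Type} [∀ i, MeasurableSpace (α i)]
    [∀ i, MeasurableSpace (β i)] (μ : ∀ i, Measure (α i)) (ν : ∀ i, Measure (β i))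
    [∀ i, IsProbabilityMeasure (μ i)] [∀ i, IsProbabilityMeasure (ν i)] :
    MeasurePreserving (fun (p : (∀ i, α i) × (∀ i, β i)) (i : ι) => (p.1 i, p.2 i))
      ((Measure.pi μ).prod (Measure.pi ν)) (Measure.pi fun i => (μ i).prod (ν i)) := by
  refine ⟨by fun_prop, ?_⟩
  symm
  refine Measure.pi_eq_generateFrom
    (C := fun i => Set.image2 (· ×ˢ ·) {s : Set (α i) | MeasurableSet s}
      {t : Set (β i) | MeasurableSet t})
    (fun i => generateFrom_prod) (fun i => isPiSystem_prod)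
    (fun i => (μ i).toFiniteSpanningSetsIn.prod (ν i).toFiniteSpanningSetsIn) ?_
  intro s hs
  choose S hS T hT hST using hs
  have e1 : (fun (p : (∀ i, α i) × (∀ i, β i)) (i : ι) => (p.1 i, p.2 i)) ⁻¹' (Set.univ.pi s) =
      (Set.univ.pi S) ×ˢ (Set.univ.pi T) := by
    ext p
    simp only [Set.mem_preimage, Set.mem_univ_pi, Set.mem_prod]
    constructor
    · intro h
      refine ⟨fun i => ?_, fun i => ?_⟩
      · have := h i
        rw [← hST i] at this
        exact this.1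
      · have := h i
        rw [← hST i] at this
        exact this.2
    · rintro ⟨h1, h2⟩ i
      rw [← hST i]
      exact ⟨h1 i, h2 i⟩
  rw [Measure.map_apply (by fun_prop) (MeasurableSet.univ_pi fun i => by
    rw [← hST i]; exact (hS i).prod (hT i)), e1, Measure.prod_prod, Measure.pi_pi, Measure.pi_pi,
    ← Finset.prod_mul_distrib]
  refine Finset.prod_congr rfl fun i _ => ?_
  rw [← hST i]
  exact (Measure.prod_prod _ _).symm

/-- The thresholds of the leaves, child by child. -/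
theorem map_leaves (D : ℕ) (A : Fin D → Finset (List ℕ)) :
    MeasurePreserving (fun (x : List ℕ → ℝ) (k : Fin D) (z : {z // z ∈ A k}) =>
        x (z.1 ++ [(k : ℕ)]))
      (Measure.infinitePi fun _ : List ℕ => unif)
      (Measure.pi fun k : Fin D => Measure.pi fun _ : {z // z ∈ A k} => unif) := by
  refine ⟨by fun_prop, ?_⟩
  let f : (Σ k : Fin D, {z // z ∈ A k}) → List ℕ := fun p => p.2.1 ++ [(p.1 : ℕ)]
  have hf : Function.Injective f := by
    rintro ⟨k, z, hz⟩ ⟨k', z', hz'⟩ h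
    simp only [f] at h
    have h1 := List.append_inj' h rfl
    have h2 : k = k' := by
      apply Fin.ext
      simpa using h1.2
    subst h2
    have h3 : z = z' := h1.1
    subst h3
    rfl
  have h1 := Measure.map_infinitePi_infinitePi_of_inj (P := fun _ : List ℕ => unif) hf
  have h2 := Measure.infinitePi_map_piCurry (ι := Fin D) (κ := fun k => {z // z ∈ A k})
    (X := fun _ _ => ℝ) (μ := fun _ _ => unif)
  have e : (fun (x : List ℕ → ℝ) (k : Fin D) (z : {z // z ∈ A k}) => x (z.1 ++ [(k : ℕ)])) =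
      (MeasurableEquiv.piCurry (fun (k : Fin D) (_ : {z // z ∈ A k}) => ℝ)) ∘
        (fun (x : List ℕ → ℝ) (p : Σ k : Fin D, {z // z ∈ A k}) => x (f p)) := by
    ext x k z
    rfl
  rw [e, ← Measure.map_map (MeasurableEquiv.measurable _) (by fun_prop), h1, h2,
    Measure.infinitePi_eq_pi]
  congr 1
  ext1 k
  rw [Measure.infinitePi_eq_pi]

/-- Law of the pair (minimal threshold, variable attached to the minimizing leaf). -/
theorem law_pair {ι Ω : Type} [Fintype ι] [DecidableEq ι] [Nonempty ι] [MeasurableSpace Ω]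
    (P : Measure Ω) [IsProbabilityMeasure P] (b : ι → ℝ≥0) (X : (ι → ℝ) → ℝ)
    (I : (ι → ℝ) → ι) (hX : Measurable X) (hI : ∀ i, MeasurableSet {x | I x = i})
    (hXI : ∀ h : ℝ → ι → ℝ≥0∞, (∀ i, Measurable fun y => h y i) →
        ∫⁻ x, h (X x) (I x) ∂(Measure.pi fun _ : ι => unif) =
          ∑ i, ((b i / ∑ j, b j : ℝ≥0) : ℝ≥0∞) * ∫⁻ y, h y i ∂unif)
    (G : Ω → ι → ℝ≥0) (hG : ∀ i, Measurable fun η => G η i) (ν : Measure ℝ≥0)
    [IsProbabilityMeasure ν]
    (hν : ∀ t, MeasurableSet t → ν t =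
      ∑ i, ((b i / ∑ j, b j : ℝ≥0) : ℝ≥0∞) * P {η | G η i ∈ t}) :
    MeasurePreserving (fun q : Ω × (ι → ℝ) => (X q.2, G q.1 (I q.2)))
      (P.prod (Measure.pi fun _ : ι => unif)) (unif.prod ν) := by
  have hm : Measurable (fun q : Ω × (ι → ℝ) => G q.1 (I q.2)) := by
    let _ : MeasurableSpace ι := ⊤
    have hI' : Measurable I := measurable_to_countable' fun i => hI i
    have h1 : Measurable (fun p : Ω × ι => G p.1 p.2) :=
      measurable_from_prod_countable_left fun i => hG i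
    exact h1.comp (measurable_fst.prodMk (hI'.comp measurable_snd))
  have hm2 : Measurable (fun q : Ω × (ι → ℝ) => (X q.2, G q.1 (I q.2))) :=
    (hX.comp measurable_snd).prodMk hm
  refine ⟨hm2, ?_⟩
  symm
  refine Measure.prod_eq fun s t hs ht => ?_
  rw [Measure.map_apply hm2 (hs.prod ht), Measure.prod_apply_symm (hm2 (hs.prod ht))]
  have h1 : ∀ y : ι → ℝ, P ((fun η => (η, y)) ⁻¹'
      ((fun q : Ω × (ι → ℝ) => (X q.2, G q.1 (I q.2))) ⁻¹' (s ×ˢ t))) =
      (fun (y : ℝ) (i : ι) => s.indicator (fun _ => (1 : ℝ≥0∞)) y * P {η | G η i ∈ t})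
        (X y) (I y) := by
    intro y
    by_cases hy : X y ∈ s
    · simp only [Set.indicator_of_mem hy, one_mul]
      congr 1
      ext η
      simp [hy]
    · simp only [Set.indicator_of_notMem hy, zero_mul]
      convert measure_empty (μ := P)
      ext η
      simp [hy]
  simp_rw [h1]
  rw [hXI (fun (y : ℝ) (i : ι) => s.indicator (fun _ => (1 : ℝ≥0∞)) y * P {η | G η i ∈ t})
    (fun i => (measurable_const.indicator hs).mul_const _), hν t ht, Finset.mul_sum]
  refine Finset.sum_congr rfl fun i _ => ?_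
  rw [lintegral_mul_const _ (measurable_const.indicator hs), lintegral_indicator hs,
    setLIntegral_const, one_mul]
  ring

theorem mem_Cl (mu : ℝ≥0) (n : ℕ) (Z : Env) (ω : Fin (Z []) → Ix → Bool) (z0 : List ℕ)
    (x : List ℕ → ℝ) (z : List ℕ) : z ∈ Cl mu n Z ω z0 x ↔ z ∈ lev Z (n + 1) ∧
      ∀ U ⊆ lev Z (n + 1), z0 ∈ U →
    (∀ y ∈ lev Z (n + 1), x y ≤ 1 - Real.exp (-((bq n Z y : ℝ) * (Lin mu n Z ω U : ℝ))) →
      y ∈ U) → z ∈ U := by
  simp only [Cl, Finset.mem_filter]

/-- The deterministic part. -/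
theorem det (hAlg : TaskAlg) (hOpn : TaskOpn) (hSel : TaskSelB) (mu : ℝ≥0) (n : ℕ) (Z : Env)
    (J : ℕ) (z0 : List ℕ) (hJ : J < Z []) (hz0 : z0 ∈ lev (sh J Z) n)
    (ω : Fin (Z []) → Ix → Bool) (x : List ℕ → ℝ) (w : ℕ → ℝ × ℝ≥0)
    (hwJ : (w J).2 = Lam mu n (sh J Z) (ω ⟨J, hJ⟩) {z0})
    (hw : ∀ k : Fin (Z []), (k : ℕ) ≠ J → (w k).2 = 0 ∨ ∃ z ∈ lev (sh k Z) n,
      (w k).2 = Lam mu n (sh k Z) (ω k) {z} ∧
      ∀ t : ℝ≥0, (w k).1 ≤ 1 - Real.exp (-((kap n (sh k Z) : ℝ) * t)) →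
        x (z ++ [(k : ℕ)]) ≤ 1 - Real.exp (-((bt n (sh k Z) [] z : ℝ) * t))) :
    Sel (mu + (w J).2) (1 + KK n Z) (kc n Z) ((Finset.range (Z [])).erase J) w ≤
      Lin mu n Z ω (Cl mu n Z ω (z0 ++ [J]) x) := by
  obtain ⟨hA1, hA2, hA3, hA4⟩ := hAlg
  obtain ⟨-, -, -, hO4, -, -⟩ := hOpn
  obtain ⟨C, hC⟩ : ∃ C, C = Cl mu n Z ω (z0 ++ [J]) x := ⟨_, rfl⟩
  rw [← hC]
  have hLin : ∀ U : Finset (List ℕ), (1 + KK n Z) * Lin mu n Z ω U = mu +
      ∑ i : Fin (Z []), Lam mu n (sh i Z) (ω i) {z | z ++ [(i : ℕ)] ∈ U} := by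
    intro U
    unfold Lin
    rw [(hA4 n Z).1, ← mul_assoc, mul_inv_cancel₀ (by positivity), one_mul]
  have hLmono : ∀ U V : Finset (List ℕ), U ⊆ V → Lin mu n Z ω U ≤ Lin mu n Z ω V := by
    intro U V hUV
    unfold Lin
    gcongr with i _
    exact hO4 mu n (sh i Z) (ω i) _ _ fun z hz => hUV hz
  have hCcl : ∀ y ∈ lev Z (n + 1),
      x y ≤ 1 - Real.exp (-((bq n Z y : ℝ) * (Lin mu n Z ω C : ℝ))) → y ∈ C := by
    intro y hy hxy
    rw [hC, mem_Cl]
    refine ⟨hy, fun U hU hzU hcl => hcl y hy ?_⟩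
    have h1 : C ⊆ U := by
      intro z hz
      rw [hC, mem_Cl] at hz
      exact hz.2 U hU hzU hcl
    have h2 : (Lin mu n Z ω C : ℝ) ≤ Lin mu n Z ω U := by exact_mod_cast hLmono _ _ h1
    refine hxy.trans ?_
    gcongr
  have hJC : z0 ++ [J] ∈ C := by
    rw [hC, mem_Cl]
    exact ⟨((hA1 n Z J z0).2).2 ⟨hJ, hz0⟩, fun U _ h _ => h⟩
  have hbq : ∀ (k : ℕ) (z : List ℕ), bq n Z (z ++ [k]) = bt n (sh k Z) [] z := by
    intro k z
    unfold bq
    rw [(hA3 n Z k [] z).2.2.2.2.1, mul_comm, mul_div_assoc, div_self, mul_one]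
    rw [(hA4 n Z).1]
    positivity
  refine (hSel (mu + (w J).2) (1 + KK n Z) (kc n Z) ((Finset.range (Z [])).erase J) w
    (by positivity)).2.1 _ ?_
  rw [hLin C, add_assoc]
  gcongr
  have e1 : ∑ i : Fin (Z []), Lam mu n (sh i Z) (ω i) {z | z ++ [(i : ℕ)] ∈ C} =
      ∑ k ∈ Finset.range (Z []), (if h : k < Z [] then
        Lam mu n (sh k Z) (ω ⟨k, h⟩) {z | z ++ [k] ∈ C} else 0) := by
    rw [Finset.sum_range]
    refine Finset.sum_congr rfl fun i _ => ?_
    simp
  rw [e1, ← Finset.add_sum_erase _ _ (Finset.mem_range.2 hJ), dif_pos hJ, hwJ]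
  refine add_le_add (hO4 mu n (sh J Z) _ _ _ fun z hz => ?_) (Finset.sum_le_sum fun k hk => ?_)
  · rw [Set.mem_singleton_iff] at hz
    rw [hz]
    exact hJC
  · have hkJ := Finset.ne_of_mem_erase hk
    have hkD := Finset.mem_range.1 (Finset.mem_of_mem_erase hk)
    rw [dif_pos hkD]
    split_ifs with hle
    · rcases hw ⟨k, hkD⟩ hkJ with h0 | ⟨z, hz, h1, h2⟩
      · rw [show (w k).2 = 0 from h0]
        exact zero_le
      · rw [show (w k).2 = Lam mu n (sh k Z) (ω ⟨k, hkD⟩) {z} from h1]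
        refine hO4 mu n (sh k Z) _ _ _ fun z' hz' => ?_
        rw [Set.mem_singleton_iff] at hz'
        rw [hz']
        refine hCcl (z ++ [k]) (((hA1 n Z k z).2).2 ⟨hkD, hz⟩) ?_
        rw [hbq]
        refine h2 _ ?_
        have e2 : kc n Z k = kap n (sh k Z) := by
          unfold kc
          rw [if_pos hkD]
        rw [e2] at hle
        exact hle
    · exact zero_le

/-- `Sel` only depends on the coordinates in `s`. -/
theorem Sel_congr (a c : ℝ≥0) (κ : ℕ → ℝ≥0) (s : Finset ℕ) (w w' : ℕ → ℝ × ℝ≥0)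
    (h : ∀ k ∈ s, w k = w' k) : Sel a c κ s w = Sel a c κ s w' := by
  unfold Sel
  congr 1
  ext t
  simp only [Set.mem_ofPred_eq]
  rw [Finset.sum_congr rfl fun k hk => by rw [h k hk]]

/-- Extension of a finite family by zero. -/
noncomputable def ext (D : ℕ) (v : Fin D → ℝ × ℝ≥0) : ℕ → ℝ × ℝ≥0 :=
  fun k => if h : k < D then v ⟨k, h⟩ else (0, 0)

theorem measurable_ext (D : ℕ) : Measurable (ext D) := by
  rw [measurable_pi_iff]
  intro k
  unfold ext
  split_ifs with h
  · fun_prop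
  · exact measurable_const

/-- The restriction of `WW` to the first `D` coordinates. -/
theorem WW_restr (ν : ℕ → Measure ℝ≥0) (D : ℕ) :
    MeasurePreserving (fun (w : ℕ → ℝ × ℝ≥0) (k : Fin D) => w k) (WW ν)
      (Measure.pi fun k : Fin D => unif.prod (pr (ν k))) := by
  refine ⟨by fun_prop, ?_⟩
  have h := Measure.map_infinitePi_infinitePi_of_inj (P := fun k => unif.prod (pr (ν k)))
    (f := fun k : Fin D => (k : ℕ)) Fin.val_injective
  rw [Measure.infinitePi_eq_pi (ι := Fin D)] at h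
  exact h

theorem pr_eq (ν : Measure ℝ≥0) [h : IsProbabilityMeasure ν] : pr ν = ν := by
  unfold pr
  rw [if_pos h]

theorem main (hAlg : TaskAlg) (hOpn : TaskOpn) (hSel : TaskSelB) (hMeas : TaskSelMeas)
    (hComp : TaskComp2) : TaskRed := by
  intro mu n Z φ J z0 hφ hJ hz0
  obtain ⟨hA1, hA2, hA3, hA4⟩ := id hAlg
  obtain ⟨hO1, hO2, hO3, hO4, hO5, hO6⟩ := id hOpn
  have hφm : Measurable φ := hφ.measurable
  obtain ⟨A, hA⟩ : ∃ A : Fin (Z []) → Finset (List ℕ),
      ∀ k, A k = if lev (sh k Z) n = ∅ then {[]} else lev (sh k Z) n := ⟨_, fun _ => rfl⟩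
  have hAne : ∀ k, Nonempty {z // z ∈ A k} := by
    intro k
    by_cases hl : lev (sh k Z) n = ∅
    · exact ⟨⟨[], by rw [hA, if_pos hl]; exact Finset.mem_singleton_self _⟩⟩
    · obtain ⟨z, hz⟩ := Finset.nonempty_iff_ne_empty.2 hl
      exact ⟨⟨z, by rw [hA, if_neg hl]; exact hz⟩⟩
  obtain ⟨b, hbd⟩ : ∃ b : ∀ k : Fin (Z []), {z // z ∈ A k} → ℝ≥0,
      ∀ k z, b k z = if lev (sh k Z) n = ∅ then 1 else bt n (sh k Z) [] z.1 :=
    ⟨_, fun _ _ => rfl⟩
  have hb : ∀ k z, 0 < b k z := by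
    intro k z
    rw [hbd]
    split_ifs with hl
    · exact one_pos
    · have hAk : A k = lev (sh k Z) n := by rw [hA, if_neg hl]
      exact (hA4 n (sh k Z)).2.2.2.1 _ (hAk ▸ z.2)
  have key := fun k => hComp {z // z ∈ A k} (b k) (hb k)
  choose X I hXI1 hXI2 using key
  obtain ⟨G, hGd⟩ : ∃ G : ∀ k : Fin (Z []), (Ix → Bool) → {z // z ∈ A k} → ℝ≥0,
      ∀ k η z, G k η z = if (k : ℕ) = J then Lam mu n (sh k Z) η {z0} else
        if lev (sh k Z) n = ∅ then 0 else Lam mu n (sh k Z) η {z.1} := ⟨_, fun _ _ _ => rfl⟩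
  have hG : ∀ k z, Measurable fun η => G k η z := by
    intro k z
    simp_rw [hGd]
    split_ifs
    · exact hO2 _ _ _ _
    · exact measurable_const
    · exact hO2 _ _ _ _
  obtain ⟨ν, hνd⟩ : ∃ ν : ℕ → Measure ℝ≥0,
      ν = fun k => if k = J then lawz mu n Z J z0 else nuF mu n Z k := ⟨_, rfl⟩
  have hsum : ∀ k, ∑ i, (((b k i / ∑ j, b k j : ℝ≥0)) : ℝ≥0∞) = 1 := by
    intro k
    rw [← ENNReal.ofNNReal_finsetSum, ← Finset.sum_div, div_self, ENNReal.coe_one]
    exact (Finset.sum_pos (fun i _ => hb k i) Finset.univ_nonempty).ne'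
  have hν : ∀ (k : Fin (Z [])) (t : Set ℝ≥0), MeasurableSet t → ν k t =
      ∑ i, ((b k i / ∑ j, b k j : ℝ≥0) : ℝ≥0∞) * PB mu n (sh k Z) {η | G k η i ∈ t} := by
    intro k t ht
    by_cases hkJ : (k : ℕ) = J
    · simp only [hGd, hkJ, if_true]
      rw [← Finset.sum_mul, hsum, one_mul, hνd]
      simp only [if_true]
      unfold lawz
      rw [Measure.map_apply (hO2 _ _ _ _) ht]
      rfl
    · simp only [hνd, if_neg hkJ]
      by_cases hl : lev (sh k Z) n = ∅
      · have hk0 : kap n (sh k Z) = 0 := by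
          rw [← (hA4 n (sh k Z)).2.1, hl, Finset.sum_empty]
        unfold nuF
        rw [if_neg (by rintro ⟨-, h⟩; exact h hk0)]
        simp only [hGd, if_neg hkJ, if_pos hl]
        rw [← Finset.sum_mul, hsum, one_mul, Measure.dirac_apply' _ ht]
        by_cases h0 : (0 : ℝ≥0) ∈ t
        · simp [h0]
        · simp [h0]
      · have hAk : A k = lev (sh k Z) n := by rw [hA, if_neg hl]
        have hsb : ∑ j, b k j = kap n (sh k Z) := by
          rw [← (hA4 n (sh k Z)).2.1, ← hAk,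
            ← Finset.sum_coe_sort (A k) (fun z => bt n (sh k Z) [] z)]
          refine Finset.sum_congr rfl fun j _ => ?_
          rw [hbd, if_neg hl]
        have hk0 : kap n (sh k Z) ≠ 0 := by
          rw [← hsb]
          exact (Finset.sum_pos (fun i _ => hb k i) Finset.univ_nonempty).ne'
        unfold nuF
        rw [if_pos ⟨k.2, hk0⟩, hsb, Measure.finsetSum_apply, ← hAk,
          ← Finset.sum_coe_sort (A k)]
        refine Finset.sum_congr rfl fun z _ => ?_
        rw [Measure.smul_apply, smul_eq_mul, hbd, if_neg hl]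
        unfold lawz
        rw [Measure.map_apply (hO2 _ _ _ _) ht]
        simp only [hGd, if_neg hkJ, if_neg hl]
        rfl
  have hνp : ∀ k : Fin (Z []), IsProbabilityMeasure (ν k) := by
    intro k
    constructor
    rw [hν k _ MeasurableSet.univ]
    simp only [Set.mem_univ, Set.ofPred_true, measure_univ, mul_one]
    exact hsum k
  have hXm : ∀ k, Measurable (X k) := by
    intro k s hs
    have h := ((hXI2 k) (fun y _ => s.indicator (fun _ => (1 : ℝ≥0∞)) y)
      (fun _ => measurable_const.indicator hs)).1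
    have h2 : X k ⁻¹' s = (fun x => s.indicator (fun _ => (1 : ℝ≥0∞)) (X k x)) ⁻¹' {1} := by
      ext x
      by_cases hx : X k x ∈ s
      · simp [hx]
      · simp [hx]
    rw [h2]
    exact h (measurableSet_singleton _)
  have hIm : ∀ k i, MeasurableSet {x | I k x = i} := by
    intro k i
    have h := ((hXI2 k) (fun _ j => if j = i then (1 : ℝ≥0∞) else 0)
      (fun _ => measurable_const)).1
    have h2 : {x | I k x = i} = (fun x => if I k x = i then (1 : ℝ≥0∞) else 0) ⁻¹' {1} := by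
      ext x
      by_cases hx : I k x = i
      · simp [hx]
      · simp [hx]
    rw [h2]
    exact h (measurableSet_singleton _)
  have hF : ∀ k : Fin (Z []), MeasurePreserving
      (fun q : (Ix → Bool) × ({z // z ∈ A k} → ℝ) => (X k q.2, G k q.1 (I k q.2)))
      ((PB mu n (sh k Z)).prod (Measure.pi fun _ => unif)) (unif.prod (ν k)) := fun k =>
    law_pair (PB mu n (sh k Z)) (b k) (X k) (I k) (hXm k) (hIm k)
      (fun h hh => ((hXI2 k) h hh).2) (G k) (hG k) (ν k) (hν k)
  have hT := (measurePreserving_pi (fun k : Fin (Z []) => (PB mu n (sh k Z)).prod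
      (Measure.pi fun _ : {z // z ∈ A k} => unif)) (fun k => unif.prod (ν k)) hF).comp
    ((pi_prod_dep (fun k : Fin (Z []) => PB mu n (sh k Z))
      (fun k => Measure.pi fun _ : {z // z ∈ A k} => unif)).comp
      ((MeasurePreserving.id (Measure.pi fun k : Fin (Z []) => PB mu n (sh k Z))).prod
        (map_leaves (Z []) A)))
  obtain ⟨g, hg⟩ : ∃ g : (ℕ → ℝ × ℝ≥0) → ℝ≥0∞, g = fun w => φ (Sel (mu + (w J).2)
    (1 + KK n Z) (kc n Z) ((Finset.range (Z [])).erase J) w) := ⟨_, rfl⟩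
  have hgm : Measurable g := by
    rw [hg]
    exact hφm.comp ((hMeas (1 + KK n Z) (kc n Z) _ (by positivity)).comp
      ((measurable_const.add (measurable_snd.comp (measurable_pi_apply J))).prodMk
        measurable_id))
  have hgext : ∀ w, g w = g (ext (Z []) (fun k => w k)) := by
    intro w
    have h1 : ∀ k, k < Z [] → ext (Z []) (fun k => w k) k = w k := by
      intro k hk
      unfold ext
      rw [dif_pos hk]
    simp only [hg]
    rw [h1 J hJ]
    congr 1
    refine Sel_congr _ _ _ _ _ _ fun k hk => ?_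
    rw [h1 k (Finset.mem_range.1 (Finset.mem_of_mem_erase hk))]
  have hR : ∫⁻ w, g w ∂(WW ν) =
      ∫⁻ v, g (ext (Z []) v) ∂(Measure.pi fun k : Fin (Z []) => unif.prod (ν k)) := by
    have h1 : (fun k : Fin (Z []) => unif.prod (pr (ν k))) =
        fun k : Fin (Z []) => unif.prod (ν k) := by
      ext1 k
      rw [pr_eq]
    have h2 := (WW_restr ν (Z [])).lintegral_comp (hgm.comp (measurable_ext (Z [])))
    rw [h1] at h2
    exact (lintegral_congr hgext).trans h2
  have hgoal : (fun w : ℕ → ℝ × ℝ≥0 => φ (Sel (mu + (w J).2) (1 + KK n Z) (kc n Z)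
      ((Finset.range (Z [])).erase J) w)) = g := hg.symm
  have hx01 : ∀ᵐ x ∂(Measure.infinitePi fun _ : List ℕ => unif),
      ∀ z : List ℕ, 0 ≤ x z ∧ x z < 1 := by
    rw [ae_all_iff]
    intro z
    have h1 : ∀ᵐ y ∂unif, 0 ≤ y ∧ y < 1 := ae_restrict_mem measurableSet_Ico
    exact (measurePreserving_eval_infinitePi (fun _ : List ℕ => unif) z).quasiMeasurePreserving.ae
      h1
  rw [← hνd]
  refine le_trans ?_ (le_of_eq (congrArg (fun f => ∫⁻ w, f w ∂(WW ν)) hgoal.symm))
  have hR2 := hT.lintegral_comp (hgm.comp (measurable_ext (Z [])))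
  have hR3 := lintegral_prod (μ := Measure.pi fun k : Fin (Z []) => PB mu n (sh k Z))
    (ν := Measure.infinitePi fun _ : List ℕ => unif) _
    ((hgm.comp (measurable_ext (Z []))).comp hT.measurable).aemeasurable
  refine le_trans ?_ (le_of_eq ((hR3.symm.trans hR2).trans hR.symm))
  refine lintegral_mono fun ω => lintegral_mono_ae ?_
  filter_upwards [hx01] with x hx
  simp only [Function.comp, hg, Prod.map, id]
  refine hφ ?_
  refine det hAlg hOpn hSel mu n Z J z0 hJ hz0 ω x _ ?_ ?_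
  · unfold ext
    rw [dif_pos hJ]
    simp only [hGd, if_true]
  · intro k hk
    have hek : ∀ v : Fin (Z []) → ℝ × ℝ≥0, ext (Z []) v (k : ℕ) = v k := by
      intro v
      unfold ext
      rw [dif_pos k.2]
    by_cases hl : lev (sh k Z) n = ∅
    · left
      rw [hek]
      simp only [hGd, if_neg hk, if_pos hl]
    · right
      have hAk : A k = lev (sh k Z) n := by rw [hA, if_neg hl]
      have hsb : ∑ j, b k j = kap n (sh k Z) := by
        rw [← (hA4 n (sh k Z)).2.1, ← hAk,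
          ← Finset.sum_coe_sort (A k) (fun z => bt n (sh k Z) [] z)]
        refine Finset.sum_congr rfl fun j _ => ?_
        rw [hbd, if_neg hl]
      rw [hek]
      refine ⟨(I k (fun z => x (z.1 ++ [(k : ℕ)]))).1, hAk ▸ (I k _).2, ?_, ?_⟩
      · simp only [hGd, if_neg hk, if_neg hl]
      · intro t ht
        rw [← hsb] at ht
        have h3 := hXI1 k (fun z => x (z.1 ++ [(k : ℕ)])) (fun z => hx _) t ht
        rw [hbd, if_neg hl] at h3
        exact h3

end Pool.Agent.W935.FR.Red
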